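import Pool.Agent.H98.TE.PAR
import Pool.Agent.H4.TP.Defs

/-!
# THEOREM XG (MP_821da1_nt): definitions and the three chapters as propositions

`F ∈ ℤ[t][x][y]` (inner variable `t`, outer variable `y`) with `HypG n m F`. `θ` is a real root of
`topm n m F`, of degree `r` over `ℚ`, `32 r < 3 n ^ 2`.

`Near F θ c1 Q j a x y`: an integer point `P = (a, x, y)` with `|y| ≤ |x|`, `a^j ≤ |x|^Q ≤ a^(j+1)`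
and `y/x` near `θ`.
`Gen d ε a x`: every non-zero `G ∈ ℤ[t][X]` of degrees at most `d` with `G(a, x) = 0` has a coefficient of absolute
value at least `a^ε`.
`IsLoc F a x y Y`: `Y ∈ ℚ[[S, T]]` is the expansion of `y` at `P`: `F(a + S, x + T, Y) = 0`, `Y(0, 0) = y`
(`S = X 0`, `T = X 1`).
`tau Y a x l ν`: the coefficient of `S^(ν 0) T^(ν 1)` of `t^i x^k y^b` at `P`, `l = (i, b, k)`.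
`mv a x y l`: the value `a^i x^k y^b`.

THEOREM: `NZ n F`, `GEN F θ`, `SLX F n θ` imply that there are only finitely many points near `θ` (file `Fin.lean`).
-/

namespace Pool.Agent.H98.XG

open Finset Polynomial Pool.Agent.H37.TE Pool.Agent.H98.TE Pool.Agent.H4.TP

/-- every non-zero integer relation of degrees at most `d` between `a` and `x` has a coefficient `≥ a^ε` -/
def Gen (d : ℕ) (ε : ℝ) (a : ℕ) (x : ℤ) : Prop :=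
  ∀ G : ℤ[X][X], G ≠ 0 → G.natDegree ≤ d → (∀ i, (G.coeff i).natDegree ≤ d) →
    evalEval (a : ℤ) x G = 0 → ∃ i j, (a : ℝ) ^ ε ≤ |(((G.coeff i).coeff j : ℤ) : ℝ)|

/-- an integer point in the window `a^j ≤ |x|^Q ≤ a^(j+1)` near `θ` -/
structure Near (F : ℤ[X][X][X]) (θ c1 : ℝ) (Q j a : ℕ) (x y : ℤ) : Prop where
  ev : ev3 (a : ℤ) x y F = 0
  le : |y| ≤ |x|
  lo : (a : ℤ) ^ j ≤ |x| ^ Q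
  hi : |x| ^ Q ≤ (a : ℤ) ^ (j + 1)
  near : |(y : ℝ) / x - θ| ≤ c1

/-- `Y` is the expansion of `y` at the point `(a, x, y)` -/
structure IsLoc (F : ℤ[X][X][X]) (a : ℕ) (x y : ℤ) (Y : MvPowerSeries (Fin 2) ℚ) : Prop where
  cst : MvPowerSeries.constantCoeff Y = (y : ℚ)
  ev : ev3 (MvPowerSeries.C (a : ℚ) + MvPowerSeries.X 0) (MvPowerSeries.C (x : ℚ) + MvPowerSeries.X 1)
    Y F = 0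

/-- the value of `∂F/∂y` at the point -/
noncomputable def fy (F : ℤ[X][X][X]) (a : ℕ) (x y : ℤ) : ℤ := ev3 (a : ℤ) x y (derivative F)

/-- the coefficient of `S^(ν 0) T^(ν 1)` in `t^i x^k y^b` at the point, `l = (i, b, k)` -/
noncomputable def tau {I n M : ℕ} (Y : MvPowerSeries (Fin 2) ℚ) (a : ℕ) (x : ℤ) (l : Lam I n M)
    (ν : Fin 2 →₀ ℕ) : ℚ :=
  MvPowerSeries.coeff ν ((MvPowerSeries.C (a : ℚ) + MvPowerSeries.X 0) ^ (l.1 : ℕ) *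
    (MvPowerSeries.C (x : ℚ) + MvPowerSeries.X 1) ^ (l.2.2 : ℕ) * Y ^ (l.2.1 : ℕ))

/-- the value of `t^i x^k y^b`, `l = (i, b, k)` -/
def mv {I n M : ℕ} (a : ℕ) (x y : ℤ) (l : Lam I n M) : ℤ :=
  (a : ℤ) ^ (l.1 : ℕ) * x ^ (l.2.2 : ℕ) * y ^ (l.2.1 : ℕ)

/-- the sizes of the auxiliary function: `Υ` is the common height -/
structure Siz (N0 : ℝ) (a₁ a₂ : ℕ) (x₁ x₂ : ℤ) (Υ : ℝ) (I₁ M₁ I₂ M₂ : ℕ) : Prop where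
  lo : Real.log a₂ ≤ Υ
  hi : Υ ≤ N0 * Real.log a₂
  I1 : I₁ * Real.log a₁ ≤ Υ
  M1 : M₁ * Real.log |(x₁ : ℝ)| ≤ Υ
  I2 : I₂ * Real.log a₂ ≤ Υ
  M2 : M₂ * Real.log |(x₂ : ℝ)| ≤ Υ

/-- `∑ c(l, l') tau_ν(l, P₁) m_l'(P₂)` -/
noncomputable def Sm {I₁ M₁ I₂ M₂ n : ℕ} (c : Lam I₁ n M₁ → Lam I₂ n M₂ → ℤ)
    (Y : MvPowerSeries (Fin 2) ℚ) (a₁ : ℕ) (x₁ : ℤ) (a₂ : ℕ) (x₂ y₂ : ℤ) (ν : Fin 2 →₀ ℕ) : ℚ :=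
  ∑ l : Lam I₁ n M₁, ∑ l' : Lam I₂ n M₂, (c l l' : ℚ) * tau Y a₁ x₁ l ν * (mv a₂ x₂ y₂ l' : ℚ)

/-- CHAPTER NZ (helper97): the zero estimate, Thue-Siegel form -/
def NZ (n : ℕ) (F : ℤ[X][X][X]) : Prop :=
  ∀ (Q j : ℕ) (del N0 : ℝ), 1 ≤ Q → 1 ≤ j → 0 < del → ∃ d : ℕ, ∀ ε : ℝ, 0 < ε →
    ∃ η : ℝ, 0 < η ∧ ∃ (A0 : ℕ) (R : ℝ), ∀ (a₁ a₂ : ℕ) (x₁ y₁ x₂ y₂ : ℤ),
      A0 ≤ a₁ → R * Real.log a₁ ≤ Real.log a₂ →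
      (a₁ : ℤ) ^ j ≤ |x₁| ^ Q → |x₁| ^ Q ≤ (a₁ : ℤ) ^ (j + 1) →
      (a₂ : ℤ) ^ j ≤ |x₂| ^ Q → |x₂| ^ Q ≤ (a₂ : ℤ) ^ (j + 1) →
      Gen d ε a₁ x₁ → Gen d ε a₂ x₂ → fy F a₁ x₁ y₁ ≠ 0 → ev3 (a₂ : ℤ) x₂ y₂ F = 0 →
      ∀ Y₁ : MvPowerSeries (Fin 2) ℚ, IsLoc F a₁ x₁ y₁ Y₁ →
      ∀ (Υ : ℝ) (I₁ M₁ I₂ M₂ : ℕ), Siz N0 a₁ a₂ x₁ x₂ Υ I₁ M₁ I₂ M₂ →
      ∀ c : Lam I₁ n M₁ → Lam I₂ n M₂ → ℤ, c ≠ 0 → (∀ l l', |((c l l' : ℤ) : ℝ)| ≤ Real.exp (η * Υ)) →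
      ∃ ν : Fin 2 →₀ ℕ, ((ν 0 + ν 1 : ℕ) : ℝ) * Real.log a₁ ≤ del * Υ ∧
        Sm c Y₁ a₁ x₁ a₂ x₂ y₂ ν ≠ 0

/-- CHAPTER GEN (helper56): the points near `θ` are generic -/
def GEN (F : ℤ[X][X][X]) (θ : ℝ) : Prop :=
  ∀ Q j : ℕ, 1 ≤ Q → 1 ≤ j → ∃ c1 : ℝ, 0 < c1 ∧ ∀ d : ℕ, ∃ ε : ℝ, 0 < ε ∧ ∃ A0 : ℕ,
    ∀ (a : ℕ) (x y : ℤ), A0 ≤ a → Near F θ c1 Q j a x y → Gen d ε a x

/-- the expansion exists at every simple point (helper97) -/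
def LOC (F : ℤ[X][X][X]) : Prop := ∀ (a : ℕ) (x y : ℤ), ev3 (a : ℤ) x y F = 0 → fy F a x y ≠ 0 →
  ∃ Y : MvPowerSeries (Fin 2) ℚ, IsLoc F a x y Y

/-- the denominators of the Taylor coefficients (helper97) -/
def DEN (n : ℕ) (F : ℤ[X][X][X]) : Prop := ∀ (a : ℕ) (x y : ℤ) (Y : MvPowerSeries (Fin 2) ℚ),
  fy F a x y ≠ 0 → IsLoc F a x y Y → ∀ (I M : ℕ) (l : Lam I n M) (ν : Fin 2 →₀ ℕ),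
    ∃ z : ℤ, (fy F a x y : ℚ) ^ (2 * (ν 0 + ν 1)) * tau Y a x l ν = z

/-- CHAPTER SLX (helper48): the auxiliary function -/
def SLX (n : ℕ) (F : ℤ[X][X][X]) (θ : ℝ) : Prop :=
  ∃ J0 : ℕ, ∀ Q j : ℕ, 1 ≤ Q → J0 ≤ j → ∃ del N0 c1 : ℝ, 0 < del ∧ 0 < c1 ∧
    ∀ η : ℝ, 0 < η → ∃ (A0 : ℕ) (R : ℝ), ∀ (a₁ a₂ : ℕ) (x₁ y₁ x₂ y₂ : ℤ),
      A0 ≤ a₁ → R * Real.log a₁ ≤ Real.log a₂ →
      Near F θ c1 Q j a₁ x₁ y₁ → Near F θ c1 Q j a₂ x₂ y₂ →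
      ∃ (Υ : ℝ) (I₁ M₁ I₂ M₂ : ℕ), Siz N0 a₁ a₂ x₁ x₂ Υ I₁ M₁ I₂ M₂ ∧
      ∃ c : Lam I₁ n M₁ → Lam I₂ n M₂ → ℤ, c ≠ 0 ∧ (∀ l l', |((c l l' : ℤ) : ℝ)| ≤ Real.exp (η * Υ)) ∧
      ∀ Y₁ : MvPowerSeries (Fin 2) ℚ, IsLoc F a₁ x₁ y₁ Y₁ →
      ∀ ν : Fin 2 →₀ ℕ, ((ν 0 + ν 1 : ℕ) : ℝ) * Real.log a₁ ≤ del * Υ →
        Sm c Y₁ a₁ x₁ a₂ x₂ y₂ ν = 0

end Pool.Agent.H98.XG
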