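import Pool.Agent.H98.XG.Defs

/-! # [H98 XG FIN] Only finitely many points near `θ` (assembly of the chapters) -/

namespace Pool.Agent.H98.XG

open Finset Polynomial Pool.Agent.H37.TE Pool.Agent.H98.TE Pool.Agent.H4.TP

/-- `F_y ≠ 0` near `θ` -/
def FYN (F : ℤ[X][X][X]) (θ : ℝ) : Prop :=
  ∀ Q j : ℕ, 1 ≤ Q → 1 ≤ j → ∃ c1 : ℝ, 0 < c1 ∧ ∃ A0 : ℕ, ∀ (a : ℕ) (x y : ℤ), A0 ≤ a →
    Near F θ c1 Q j a x y → fy F a x y ≠ 0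

theorem Near.mono {F : ℤ[X][X][X]} {θ c1 c2 : ℝ} (h : c1 ≤ c2) {Q j a : ℕ} {x y : ℤ}
    (H : Near F θ c1 Q j a x y) : Near F θ c2 Q j a x y :=
  ⟨H.ev, H.le, H.lo, H.hi, H.near.trans h⟩

/-- only finitely many points near `θ` in every window -/
theorem fin_near {n : ℕ} {F : ℤ[X][X][X]} {θ : ℝ} (hL : LOC F) (hN : NZ n F) (hG : GEN F θ)
    (hS : SLX n F θ) (hF : FYN F θ) :
    ∃ J0 : ℕ, 1 ≤ J0 ∧ ∀ Q j : ℕ, 1 ≤ Q → J0 ≤ j → ∃ c1 : ℝ, 0 < c1 ∧ ∃ A0 : ℕ,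
      ∀ (a : ℕ) (x y : ℤ), A0 ≤ a → ¬ Near F θ c1 Q j a x y := by
  obtain ⟨J0, hJ⟩ := hS
  refine ⟨J0 + 1, by omega, fun Q j hQ hj => ?_⟩
  obtain ⟨del, N0, c1, hdel, hc1, hS⟩ := hJ Q j hQ (by omega)
  obtain ⟨c2, hc2, hG⟩ := hG Q j hQ (by omega)
  obtain ⟨c3, hc3, A3, hF⟩ := hF Q j hQ (by omega)
  obtain ⟨d, hN⟩ := hN Q j del N0 hQ (by omega) hdel
  obtain ⟨ε, hε, A2, hG⟩ := hG d
  obtain ⟨η, hη, A1, R1, hN⟩ := hN ε hε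
  obtain ⟨A4, R4, hS⟩ := hS η hη
  obtain ⟨c0, hc0⟩ : ∃ c0 : ℝ, c0 = min c1 (min c2 c3) := ⟨_, rfl⟩
  have e1 : c0 ≤ c1 := by rw [hc0]; exact min_le_left _ _
  have e2 : c0 ≤ c2 := by rw [hc0]; exact (min_le_right _ _).trans (min_le_left _ _)
  have e3 : c0 ≤ c3 := by rw [hc0]; exact (min_le_right _ _).trans (min_le_right _ _)
  refine ⟨c0, by rw [hc0]; exact lt_min hc1 (lt_min hc2 hc3), ?_⟩
  by_contra hcon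
  push Not at hcon
  -- the first point
  obtain ⟨a₁, x₁, y₁, ha₁, h₁⟩ := hcon (A1 + A2 + A3 + A4 + 1)
  -- the second point
  obtain ⟨a₂, x₂, y₂, ha₂, h₂⟩ := hcon (A1 + A2 + A3 + A4 + 1 +
    ⌈Real.exp (R1 * Real.log a₁)⌉₊ + ⌈Real.exp (R4 * Real.log a₁)⌉₊)
  have hlog : ∀ R : ℝ, ⌈Real.exp (R * Real.log a₁)⌉₊ ≤ a₂ → R * Real.log a₁ ≤ Real.log a₂ := by
    intro R hR
    have h3 : Real.exp (R * Real.log a₁) ≤ (a₂ : ℝ) := (Nat.le_ceil _).trans (by exact_mod_cast hR)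
    rwa [← Real.le_log_iff_exp_le (by have : 0 < a₂ := by omega
                                      exact_mod_cast this)] at h3
  obtain ⟨Υ, I₁, M₁, I₂, M₂, hsz, c, hc, hcH, hz⟩ := hS a₁ a₂ x₁ y₁ x₂ y₂ (by omega)
    (hlog R4 (by omega)) (h₁.mono e1) (h₂.mono e1)
  have hfy := hF a₁ x₁ y₁ (by omega) (h₁.mono e3)
  obtain ⟨Y, hY⟩ := hL a₁ x₁ y₁ h₁.ev hfy
  obtain ⟨ν, hν, hne⟩ := hN a₁ a₂ x₁ y₁ x₂ y₂ (by omega) (hlog R1 (by omega)) h₁.lo h₁.hi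
    h₂.lo h₂.hi (hG a₁ x₁ y₁ (by omega) (h₁.mono e2)) (hG a₂ x₂ y₂ (by omega) (h₂.mono e2)) hfy
    h₂.ev Y hY Υ I₁ M₁ I₂ M₂ hsz c hc hcH
  exact hne (hz Y hY ν hν)

end Pool.Agent.H98.XG
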