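import Pool.Agent.H98.XG.Fin

/-! # [H98 XG FYN] `F_y ≠ 0` near a simple root `θ` of the top form -/

namespace Pool.Agent.H98.XG

open Finset Polynomial Pool.Agent.H37.TE Pool.Agent.H98.TE Pool.Agent.H4.TP

private theorem der_coeff (F : ℤ[X][X][X]) (j a b : ℕ) :
    cf3 (derivative F) j a b = cf3 F j a (b + 1) * ((b : ℤ) + 1) := by
  unfold cf3
  rw [coeff_derivative]
  have h1 : ((b : ℤ[X][X]) + 1) = C (C (((b : ℤ) + 1 : ℤ))) := by
    simp
  rw [h1, coeff_mul_C, coeff_mul_C]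

private theorem der_deg {k m : ℕ} {F : ℤ[X][X][X]} (H : DegF (k + 1) m F) :
    DegF k m (derivative F) := by
  constructor
  · intro a b hab
    ext j
    have h1 := der_coeff F j a b
    unfold cf3 at h1
    rw [h1, H.tot a (b + 1) (by omega), coeff_zero, zero_mul]
  · intro a b
    rw [natDegree_le_iff_coeff_eq_zero]
    intro j hj
    have h1 := der_coeff F j a b
    unfold cf3 at h1
    rw [h1, coeff_eq_zero_of_natDegree_lt ((H.deg a (b + 1)).trans_lt hj), zero_mul]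

private theorem der_top (k m : ℕ) (F : ℤ[X][X][X]) :
    topm k m (derivative F) = derivative (topm (k + 1) m F) := by
  unfold topm
  rw [derivative_sum, sum_range_succ' _ (k + 1)]
  have h1 : derivative (C ((cf3 F m (k + 1 - 0) 0 : ℤ) : ℝ) * X ^ 0) = 0 := by simp
  rw [h1, add_zero]
  refine sum_congr rfl fun b hb => ?_
  rw [mem_range] at hb
  rw [derivative_C_mul, derivative_X_pow, der_coeff]
  have h2 : k + 1 - (b + 1) = k - b := by omega
  rw [h2, Nat.add_sub_cancel]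
  push_cast
  simp only [map_mul, map_add, map_natCast, map_one, map_intCast]
  ring

/-- **`F_y ≠ 0` near `θ`.** -/
theorem fyn {n m : ℕ} {F : ℤ[X][X][X]} (hn : 1 ≤ n) (h : HypG n m F) {θ : ℝ}
    (h0 : (topm n m F).eval θ = 0) : FYN F θ := by
  intro Q j hQ hj
  obtain ⟨k, rfl⟩ : ∃ k, n = k + 1 := ⟨n - 1, by omega⟩
  have h1 := (topm_simple h.sq).2 θ h0
  rw [← der_top] at h1
  obtain ⟨g, hg⟩ : ∃ g, g = topm k m (derivative F) := ⟨_, rfl⟩
  rw [← hg] at h1
  obtain ⟨C2, hC2, h2⟩ := top_small (der_deg h.H)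
  rw [← hg] at h2
  have hd : 0 < |g.eval θ| / 2 := by
    have := abs_pos.2 h1
    linarith
  obtain ⟨r, hr, hcont⟩ := Metric.continuous_iff.1 g.continuous θ (|g.eval θ| / 2) hd
  obtain ⟨K, hK⟩ : ∃ K : ℝ, K = C2 / (|g.eval θ| / 2) + 1 := ⟨_, rfl⟩
  have hq0 : 0 ≤ C2 / (|g.eval θ| / 2) := by positivity
  have hK1 : 1 ≤ K := by
    rw [hK]
    linarith
  refine ⟨r / 2, by linarith, ⌈K ^ Q⌉₊ + 1, fun a x y ha hP hfy => ?_⟩
  have ha1 : (1 : ℝ) ≤ a := by exact_mod_cast (by omega : 1 ≤ a)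
  have hKa : K ^ Q ≤ a := by
    refine (Nat.le_ceil _).trans ?_
    exact_mod_cast (by omega : ⌈K ^ Q⌉₊ ≤ a)
  have hxjr : (a : ℝ) ^ j ≤ |(x : ℝ)| ^ Q := by exact_mod_cast hP.lo
  obtain ⟨s, hs⟩ : ∃ s : ℝ, s = min (a : ℝ) |(x : ℝ)| := ⟨_, rfl⟩
  have hs0 : 0 ≤ s := by
    rw [hs]
    exact le_min (by linarith) (abs_nonneg _)
  have hsa : s ≤ a := by rw [hs]; exact min_le_left _ _
  have hsx : s ≤ |(x : ℝ)| := by rw [hs]; exact min_le_right _ _
  have hsQ : (a : ℝ) ≤ s ^ Q := by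
    rw [hs]
    rcases le_total (a : ℝ) |(x : ℝ)| with h4 | h4
    · rw [min_eq_left h4]
      exact le_self_pow₀ ha1 (by omega)
    · rw [min_eq_right h4]
      exact (le_self_pow₀ ha1 (by omega : j ≠ 0)).trans hxjr
  have hKs : K ≤ s :=
    (pow_le_pow_iff_left₀ (by linarith) hs0 (by omega : Q ≠ 0)).1 (hKa.trans hsQ)
  have hs1 : 1 ≤ s := hK1.trans hKs
  have hsp : 0 < s := by linarith
  have hx0 : (x : ℝ) ≠ 0 := abs_pos.1 (by linarith)
  have hyr : |(y : ℝ)| ≤ |(x : ℝ)| := by exact_mod_cast hP.le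
  have hevr : ev3 ((a : ℤ) : ℝ) (x : ℝ) (y : ℝ) (derivative F) = 0 := by
    have h3 : ev3 (a : ℤ) x y (derivative F) = 0 := hfy
    rw [ev3_cast (der_deg h.H), h3, Int.cast_zero]
  have h5 := h2 ((a : ℤ) : ℝ) x y (1 / s) (by push_cast; linarith) hx0 hyr hevr
    (one_div_le_one_div_of_le hsp (by push_cast; exact hsa))
    (one_div_le_one_div_of_le hsp hsx) (by rw [div_le_one hsp]; exact hs1)
  have h6 := hcont ((y : ℝ) / x) (by
    rw [Real.dist_eq]
    exact hP.near.trans_lt (by linarith))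
  rw [Real.dist_eq] at h6
  have h7 : C2 * (1 / s) < |g.eval θ| / 2 := by
    rw [mul_one_div, div_lt_iff₀ hsp]
    have : C2 / (|g.eval θ| / 2) < s := by
      rw [hK] at hKs
      linarith
    rw [div_lt_iff₀ hd] at this
    linarith
  have h8 := abs_sub_abs_le_abs_sub (g.eval θ) (g.eval ((y : ℝ) / x))
  rw [abs_sub_comm] at h8
  linarith

end Pool.Agent.H98.XG
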