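import Pool.Agent.H4.SX.NPX
import Pool.Agent.H4.SX.MOB

/-! # [H98 XG NPG] No large point over a fibre, all degrees `r` with `2 r < n` or `32 r < 3 n ^ 2`

As `H4/SX/NPX.lean`; `noBadW` (`H97/TV/NBW.lean`) with the fields `ℚ(γ l)` of the real roots of the centre, `M = 2`. -/

namespace Pool.Agent.H98.XG

/-- the condition for the degree `r` of a real zero of the top form -/
def Cond (n r : ℕ) : Prop := 2 * r < n ∨ 32 * r < 3 * n ^ 2

theorem Cond.mono {n r r' : ℕ} (h : Cond n r) (hr : r' ≤ r) : Cond n r' := by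
  rcases h with h | h
  · exact Or.inl (by omega)
  · exact Or.inr (by omega)


open Finset Polynomial Pool.Agent.H4.SX Pool.Agent.H72.ES Pool.Agent.H87.SA Pool.Agent.H87.SA2 Pool.Agent.H87.AX
  Pool.Agent.H8.AW Pool.Agent.H52.AC Pool.Agent.H97.NW Pool.Agent.H34.AC Pool.Agent.H97.FB
  Pool.Agent.H97.FC Pool.Agent.H37.TU Pool.Agent.H97.TU Pool.Agent.H97.TV

theorem no_ptG {n m ν : ℕ} (hn : 3 ≤ n) (hm : 1 ≤ m) (hν : 4 ≤ ν) {f : ℤ[X][X]}
    (hd : f.natDegree = n) (hmd : ∀ i, (f.coeff i).natDegree ≤ m) (hl : (ldU m f).natDegree = n)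
    (hsq : Squarefree ((ldU m f).map (Int.castRingHom ℚ)))
    (hirr : Irreducible (f.map (mapRingHom (Int.castRingHom ℂ))))
    (hR : ∀ θ : ℝ, aeval θ (ldU m f) = 0 → Cond n (minpoly ℚ θ).natDegree) :
    ∃ (C A0 : ℕ) (R1 : ℝ), ∀ a : ℕ, A0 ≤ a → ∀ P : Ptd ν, P.Thr C → R1 * Real.log a ≤ P.ell →
      (∀ θ : Fin n → ℂ, Rts (fa (mo n f) a) θ → ∃ l, Nonempty (LbG P (v1 θ) l)) → False := by
  classical
  obtain ⟨R1, c, hR1, hbadE, hbadQ⟩ := noBadW n m ν (by omega) hm hν
  obtain ⟨cf, hfib⟩ := exists_fibM n m (by omega) hm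
  obtain ⟨γ, hcm, hγ, hfib⟩ := hfib f hd hmd hl hsq hirr
  obtain ⟨CT, hTR⟩ := thA_rts n m
  obtain ⟨CR, hRR⟩ := fam_realV n m
  obtain ⟨B, hB⟩ : ∃ B : ℕ, B = 2 + ∑ i ∈ range (n + 1), ∑ j ∈ range (m + 1),
      ((f.coeff i).coeff j).natAbs := ⟨_, rfl⟩
  have hB2 : 2 ≤ B := by omega
  have hfB : ∀ i j, |(f.coeff i).coeff j| ≤ (B : ℤ) := by
    intro i j
    by_cases hi : i ∈ range (n + 1)
    · by_cases hj : j ∈ range (m + 1)
      · have h1 : ((f.coeff i).coeff j).natAbs ≤ ∑ j ∈ range (m + 1), ((f.coeff i).coeff j).natAbs :=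
          Finset.single_le_sum (f := fun j => ((f.coeff i).coeff j).natAbs)
            (fun _ _ => Nat.zero_le _) hj
        have h2 : ∑ j ∈ range (m + 1), ((f.coeff i).coeff j).natAbs ≤ ∑ i ∈ range (n + 1),
            ∑ j ∈ range (m + 1), ((f.coeff i).coeff j).natAbs :=
          Finset.single_le_sum (f := fun i => ∑ j ∈ range (m + 1), ((f.coeff i).coeff j).natAbs)
            (fun _ _ => Nat.zero_le _) hi
        rw [Int.abs_eq_natAbs]
        exact_mod_cast (by omega : ((f.coeff i).coeff j).natAbs ≤ B)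
      · rw [mem_range, not_lt] at hj
        rw [coeff_eq_zero_of_natDegree_lt (lt_of_le_of_lt (hmd i) (by omega))]
        simp
    · rw [mem_range, not_lt] at hi
      rw [coeff_eq_zero_of_natDegree_lt (p := f) (by omega)]
      simp
  obtain ⟨b, hb, ⟨D⟩⟩ := hfib B hB2 hfB
  obtain ⟨QQ, hQQ⟩ : ∃ QQ : Finset ℚ[X], QQ = (univ.image fun l : Fin n => minpoly ℚ (γ l).re) :=
    ⟨_, rfl⟩
  obtain ⟨A0, -, hA0⟩ := hbadQ QQ
  refine ⟨c + cA ν, b ^ (c + CT + CR) + A0, R1, ?_⟩
  intro a ha P hThr hbig hlab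
  have hb2 := D.Fm.B2
  have haA : A0 ≤ a := (Nat.le_add_left _ _).trans ha
  have ha : b ^ (c + CT + CR) ≤ a := (Nat.le_add_right _ _).trans ha
  have ha1 : 1 ≤ a := (Nat.one_le_pow _ _ (by omega)).trans ha
  have hbc1 : b ^ c ≤ a := (Nat.pow_le_pow_right (by omega) (by omega)).trans ha
  have hbcT : b ^ CT ≤ a := (Nat.pow_le_pow_right (by omega) (by omega)).trans ha
  have hbcR : b ^ CR ≤ a := (Nat.pow_le_pow_right (by omega) (by omega)).trans ha
  have hRt := hTR b _ D.Fm a hbcT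
  obtain ⟨l, hL⟩ := hlab _ hRt
  have hre : (D.Fm.pd.x l).map (starRingEnd ℂ) = D.Fm.pd.x l := by
    refine hRR b _ D.Fm a hbcR l ?_
    obtain ⟨L⟩ := hL
    have hint := (gdG_one (D.Fm.monic.map (evalRingHom (a : ℤ))) hRt).int l 0
    have hAA : thA D.Fm.pd m a l ∈ AA := by
      rw [mem_algebraicClosure_iff]
      exact (hint.tower_top (A := ℚ)).isAlgebraic
    exact lab_real hν P (P.thr_mono (by omega) hThr) L hAA
  obtain ⟨g, hg⟩ : ∃ g, g = ldU m f := ⟨_, rfl⟩
  rw [← hg] at hl hsq hR hcm hγ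
  have hgn : g.coeff n ≠ 0 := by
    rw [← hl, coeff_natDegree, Ne, leadingCoeff_eq_zero]
    rintro rfl
    simp at hl
    omega
  have hgnC : ((g.coeff n : ℤ) : ℂ) ≠ 0 := by exact_mod_cast hgn
  have hgnR : ((g.coeff n : ℤ) : ℝ) ≠ 0 := by exact_mod_cast hgn
  have hgnQ : ((g.coeff n : ℤ) : ℚ) ≠ 0 := by exact_mod_cast hgn
  have hconj : starRingEnd ℂ (γ l) = γ l := by
    have h1 := congrArg (PowerSeries.coeff 0) hre
    rw [PowerSeries.coeff_map, D.cen l] at h1
    exact h1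
  obtain ⟨r, hr⟩ := Complex.conj_eq_iff_real.1 hconj
  have hev : ∀ u, aeval (γ u) (cenU n g) = 0 := by
    intro u
    rw [aeval_def, eval₂_eq_eval_map, algebraMap_int_eq, hγ.1, eval_prod]
    exact prod_eq_zero (mem_univ u) (by simp)
  have hgr : ∀ u, aeval (γ u / ((g.coeff n : ℤ) : ℂ)) g = 0 := by
    intro u
    have h1 := congrArg (aeval (γ u / ((g.coeff n : ℤ) : ℂ))) (cenU_rel (by omega : 1 ≤ n) hl)
    rw [aeval_comp, map_mul, map_mul, aeval_X, aeval_C, aeval_C] at h1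
    have h2 : (algebraMap ℤ ℂ) (g.coeff n) * (γ u / ((g.coeff n : ℤ) : ℂ)) = γ u := by
      rw [algebraMap_int_eq, eq_intCast]
      field_simp
    rw [h2, hev u] at h1
    have h3 : (algebraMap ℤ ℂ) (g.coeff n ^ (n - 1)) ≠ 0 := by
      rw [algebraMap_int_eq, eq_intCast]
      push_cast
      exact pow_ne_zero _ hgnC
    exact (mul_eq_zero.1 h1.symm).resolve_left h3
  obtain ⟨ρ0, hρ0⟩ : ∃ ρ0 : ℝ, ρ0 = r / ((g.coeff n : ℤ) : ℝ) := ⟨_, rfl⟩
  have hρC : ((ρ0 : ℝ) : ℂ) = γ l / ((g.coeff n : ℤ) : ℂ) := by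
    rw [hρ0, hr]
    push_cast
    rfl
  have hρg : aeval ρ0 g = 0 := by
    have h1 := hgr l
    rw [← hρC] at h1
    have h2 : aeval ((ρ0 : ℝ) : ℂ) g = ((aeval ρ0 g : ℝ) : ℂ) := by
      rw [← Complex.coe_algebraMap, aeval_algebraMap_apply]
    rw [h2] at h1
    exact_mod_cast h1
  have hs := hR ρ0 hρg
  have hint : IsIntegral ℚ ρ0 := by
    rw [← isAlgebraic_iff_isIntegral]
    refine ⟨g.map (Int.castRingHom ℚ), ?_, ?_⟩
    · intro h0
      rw [Polynomial.map_eq_zero_iff (RingHom.injective_int _)] at h0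
      rw [h0] at hl
      simp at hl
      omega
    · rw [aeval_def, eval₂_map]
      rw [aeval_def] at hρg
      have h9 : (algebraMap ℚ ℝ).comp (Int.castRingHom ℚ) = algebraMap ℤ ℝ := RingHom.ext_int _ _
      rw [h9]
      exact hρg
  obtain ⟨p, hp⟩ : ∃ p : ℚ[X], p = (minpoly ℚ ρ0).comp (C (((g.coeff n : ℤ) : ℚ)⁻¹) * X) := ⟨_, rfl⟩
  have hpev : ∀ z : ℂ, aeval z p = aeval (z / ((g.coeff n : ℤ) : ℂ)) (minpoly ℚ ρ0) := by
    intro z
    rw [hp, aeval_comp, map_mul, aeval_X, aeval_C]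
    congr 1
    rw [map_inv₀, map_intCast]
    field_simp
  have hmin0 : minpoly ℚ ρ0 ≠ 0 := minpoly.ne_zero hint
  have hpdeg : p.natDegree = (minpoly ℚ ρ0).natDegree := by
    rw [hp, natDegree_comp, natDegree_C_mul_X _ (inv_ne_zero hgnQ), mul_one]
  have hp0 : p ≠ 0 := by
    intro h0
    rw [h0, natDegree_zero] at hpdeg
    have := minpoly.natDegree_pos hint
    omega
  have hAAγ : ∀ u, γ u ∈ AA := by
    intro u
    rw [mem_algebraicClosure_iff]
    have h1 : IsIntegral ℤ (γ u) := ⟨cenU n g, hcm, by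
      have := hev u
      rwa [aeval_def] at this⟩
    exact (h1.tower_top (A := ℚ)).isAlgebraic
  have hO : ∀ ρ : Fin n → ℂ, (∀ (σ : AA →+* ℂ) (u v : Fin n), σ ⟨γ u, hAAγ u⟩ = γ v →
      Cj σ (ρ u) (ρ v)) → Nonempty (OrbD D.Fm.pd (minpoly ℚ ρ0).natDegree (ρ l) l) := by
    intro ρ hρ
    refine ⟨⟨univ.filter fun u => aeval (γ u) p = 0, ρ, ?_, rfl, ?_, ?_⟩⟩
    · rw [mem_filter]
      refine ⟨mem_univ _, ?_⟩
      rw [hpev, ← hρC, ← Complex.coe_algebraMap, aeval_algebraMap_apply, minpoly.aeval, map_zero]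
    · rw [← hpdeg]
      have h1 : ((univ.filter fun u => aeval (γ u) p = 0).image γ) ⊆ (p.map (algebraMap ℚ ℂ)).roots.toFinset := by
        intro z hz
        rw [mem_image] at hz
        obtain ⟨u, hu, rfl⟩ := hz
        rw [mem_filter] at hu
        rw [Multiset.mem_toFinset, mem_roots (by
          rwa [Ne, Polynomial.map_eq_zero]), IsRoot.def, eval_map, ← aeval_def]
        exact hu.2
      calc (univ.filter fun u => aeval (γ u) p = 0).card
          = ((univ.filter fun u => aeval (γ u) p = 0).image γ).card :=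
            (card_image_of_injective _ hγ.2).symm
        _ ≤ (p.map (algebraMap ℚ ℂ)).roots.toFinset.card := card_le_card h1
        _ ≤ Multiset.card (p.map (algebraMap ℚ ℂ)).roots := Multiset.toFinset_card_le _
        _ ≤ (p.map (algebraMap ℚ ℂ)).natDegree := card_roots' _
        _ = p.natDegree := natDegree_map _
    · intro σ π hπ u hu
      obtain ⟨ξ, -, hσ⟩ := hπ
      rw [mem_filter] at hu
      have h1 := hσ u 0 ⟨γ u, hAAγ u⟩ (by rw [D.cen u])
      rw [pow_zero, one_mul, D.cen] at h1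
      refine ⟨?_, hρ σ u (π u) h1⟩
      rw [mem_filter]
      refine ⟨mem_univ _, ?_⟩
      rw [← h1]
      have h2 : aeval (⟨γ u, hAAγ u⟩ : AA) p = 0 := by
        have h3 : ((aeval (⟨γ u, hAAγ u⟩ : AA) p : AA) : ℂ) = aeval (γ u) p := by
          have := aeval_algebraMap_apply ℂ (⟨γ u, hAAγ u⟩ : AA) p
          exact this.symm
        rw [hu.2] at h3
        exact_mod_cast h3
      have h4 : aeval (σ ⟨γ u, hAAγ u⟩) p = σ (aeval (⟨γ u, hAAγ u⟩ : AA) p) := by
        rw [aeval_def, aeval_def, Polynomial.hom_eval₂]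
        congr 1
        exact Subsingleton.elim _ _
      rw [h4, h2, map_zero]
  rcases hs with hs | hs
  · exact hbadE _ hs ⟨a, b, mo n f, D.Fm, l, hO (fun _ => 0) (fun σ u v _ a0 ha0 => by
      have h2 : a0 = 0 := by exact_mod_cast ha0
      rw [h2, map_zero]), P, hL, hbc1, P.thr_mono (by omega) hThr, hbig, ha1⟩
  · have hO1 := hO γ (fun σ u v huv a0 ha0 => by
      have h2 : a0 = ⟨γ u, hAAγ u⟩ := Subtype.ext ha0
      rw [h2, huv])
    have hrint : IsIntegral ℚ r := by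
      have h1 : IsIntegral ℤ (γ l) := ⟨cenU n g, hcm, by
        have := hev l
        rwa [aeval_def] at this⟩
      have h2 : IsIntegral ℤ ((r : ℝ) : ℂ) := by rw [← hr]; exact h1
      have h3 : IsIntegral ℤ (algebraMap ℝ ℂ r) := h2
      exact (((isIntegral_algebraMap_iff (algebraMap ℝ ℂ).injective).1 h3).tower_top (A := ℚ))
    have hre1 : (γ l).re = r := by rw [hr, Complex.ofReal_re]
    have hqm : minpoly ℚ r ∈ QQ := by
      rw [hQQ, mem_image]
      exact ⟨l, mem_univ _, by rw [hre1]⟩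
    have hdeg : (minpoly ℚ r).natDegree = (minpoly ℚ ρ0).natDegree := by
      rw [← IntermediateField.adjoin.finrank hrint, ← IntermediateField.adjoin.finrank hint]
      have h1 : IntermediateField.adjoin ℚ {r} = IntermediateField.adjoin ℚ {ρ0} := by
        apply le_antisymm
        · rw [IntermediateField.adjoin_simple_le_iff]
          have h2 : r = ρ0 * ((g.coeff n : ℤ) : ℝ) := by
            rw [hρ0]
            field_simp
          rw [h2]
          exact mul_mem (IntermediateField.mem_adjoin_simple_self ℚ _) (intCast_mem _ _)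
        · rw [IntermediateField.adjoin_simple_le_iff, hρ0]
          exact div_mem (IntermediateField.mem_adjoin_simple_self ℚ _) (intCast_mem _ _)
      rw [h1]
    have hpos : 0 < (minpoly ℚ ρ0).natDegree := minpoly.natDegree_pos hint
    have hle : (minpoly ℚ ρ0).natDegree ≤ n := by
      rw [← hdeg]
      have h1 : aeval r ((cenU n g).map (Int.castRingHom ℚ)) = 0 := by
        have h2 : aeval (algebraMap ℝ ℂ r) (cenU n g) = 0 := by
          have h3 := hev l
          rw [hr] at h3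
          exact h3
        rw [aeval_algebraMap_apply] at h2
        have h4 : aeval r (cenU n g) = 0 := (map_eq_zero (algebraMap ℝ ℂ)).1 h2
        rw [aeval_def, eval₂_map]
        rw [aeval_def] at h4
        have h9 : (algebraMap ℚ ℝ).comp (Int.castRingHom ℚ) = algebraMap ℤ ℝ := RingHom.ext_int _ _
        rw [h9]
        exact h4
      have h5 : (cenU n g).natDegree = n := (cenU_monic (by omega) g).2
      have h6 := natDegree_le_of_dvd (minpoly.dvd ℚ r h1) (hcm.map _).ne_zero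
      rwa [hcm.natDegree_map, h5] at h6
    have hnum : Pool.Agent.H97.TU.Num 2 n (minpoly ℚ r).natDegree (minpoly ℚ ρ0).natDegree := by
      rw [hdeg]
      unfold Pool.Agent.H97.TU.Num
      obtain ⟨e, he⟩ : ∃ e, e = (minpoly ℚ ρ0).natDegree := ⟨_, rfl⟩
      rw [← he] at hs hpos ⊢
      have h1 : (2 * 2).factorial = 24 := rfl
      rw [h1]
      have h2 : 32 * e * (8 * e ^ 2) < 3 * n ^ 2 * (8 * e ^ 2) :=
        Nat.mul_lt_mul_of_pos_right hs (by positivity)
      calc (2 * 2) ^ (2 * 2) * e * e ^ 2 = 32 * e * (8 * e ^ 2) := by ring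
        _ < 3 * n ^ 2 * (8 * e ^ 2) := h2
        _ = 24 * (e * n) ^ 2 := by ring
    have hbe : aeval (γ l) (minpoly ℚ r) = 0 := by
      rw [hr, ← Complex.coe_algebraMap, aeval_algebraMap_apply, minpoly.aeval, map_zero]
    have h1 := hA0 _ hqm (minpoly.irreducible hrint) (by rw [hdeg]; exact hle) _ hle
      ⟨2, by norm_num, hnum⟩ (γ l) hbe
      ⟨a, b, mo n f, D.Fm, l, hO1, P, hL, hbc1, P.thr_mono (by omega) hThr, hbig, ha1⟩
    exact absurd h1 (not_lt.2 haA)

end Pool.Agent.H98.XG
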